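import Mathlib

/-!
Splitting the integers up to `k` according to their largest prime factor.
-/

namespace Pool.Agent.MP_f7711f_nt.H9

open Finset

open Classical in
/-- The cofactors of the prime `q`. -/
noncomputable def Mq (k y T q : ℕ) : Finset ℕ :=
  if q.Prime ∧ y < q then
    (Icc 1 (k / q)).filter fun m => m ∈ Nat.smoothNumbers q ∧ ∀ p, m.factorization p ≤ T + 1
  else ∅

theorem mem_Mq {k y T q m : ℕ} : m ∈ Mq k y T q ↔ q.Prime ∧ y < q ∧ 1 ≤ m ∧ m ≤ k / q ∧
    m ∈ Nat.smoothNumbers q ∧ ∀ p, m.factorization p ≤ T + 1 := by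
  unfold Mq
  split_ifs with h
  · simp [h.1, h.2, and_assoc]
  · simp only [Finset.notMem_empty, false_iff]
    exact fun h' => h ⟨h'.1, h'.2.1⟩

/-- The integers in one of the blocks. -/
noncomputable def Blk (k y T : ℕ) : Finset ℕ :=
  (range (k + 1)).biUnion fun q => (Mq k y T q).image fun m => q * m

theorem Blk_subset (k y T : ℕ) : Blk k y T ⊆ Icc 1 k := by
  intro n hn
  simp only [Blk, mem_biUnion, mem_image] at hn
  obtain ⟨q, _, m, hm, rfl⟩ := hn
  obtain ⟨hq, _, h1, h2, _⟩ := mem_Mq.mp hm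
  rw [mem_Icc]
  refine ⟨Nat.mul_pos hq.pos h1, ?_⟩
  rw [Nat.le_div_iff_mul_le hq.pos] at h2
  rwa [mul_comm]

theorem card_Blk (k y T : ℕ) : (Blk k y T).card = ∑ q ∈ range (k + 1), (Mq k y T q).card := by
  have key : ∀ q q' m m', q < q' → m ∈ Mq k y T q → m' ∈ Mq k y T q' → q * m ≠ q' * m' := by
    intro q q' m m' hlt hm hm' h
    obtain ⟨hq, _, _, _, hs, _⟩ := mem_Mq.mp hm
    have hq' := (mem_Mq.mp hm').1
    have hd : q' ∣ q * m := h ▸ Dvd.intro _ rfl
    rcases (Nat.Prime.dvd_mul hq').mp hd with h1 | h1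
    · exact absurd (Nat.le_of_dvd hq.pos h1) (by omega)
    · exact absurd (Nat.mem_smoothNumbers'.mp hs q' hq' h1) (by omega)
  unfold Blk
  rw [Finset.card_biUnion]
  · refine Finset.sum_congr rfl fun q _ => Finset.card_image_of_injOn ?_
    intro m hm m' _ h
    exact Nat.eq_of_mul_eq_mul_left (mem_Mq.mp hm).1.pos h
  · intro q _ q' _ hne
    rw [Function.onFun, Finset.disjoint_left]
    intro n h1 h2
    obtain ⟨m, hm, rfl⟩ := mem_image.mp h1
    obtain ⟨m', hm', h⟩ := mem_image.mp h2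
    rcases lt_or_gt_of_ne hne with hlt | hlt
    · exact key q q' m m' hlt hm hm' h.symm
    · exact key q' q m' m hlt hm' hm h

theorem card_Mq_le (k y T q : ℕ) (hy : 0 < y) : ((Mq k y T q).card : ℝ) ≤ k / y := by
  have h : (Mq k y T q).card ≤ k / y := by
    have : Mq k y T q ⊆ Icc 1 (k / y) := by
      intro m hm
      obtain ⟨_, h1, h2, h3, _⟩ := mem_Mq.mp hm
      exact mem_Icc.mpr ⟨h2, h3.trans (Nat.div_le_div_left h1.le hy)⟩
    simpa using Finset.card_le_card this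
  exact (Nat.cast_le.mpr h).trans Nat.cast_div_le

theorem rest_subset (k y T : ℕ) : Icc 1 k \ Blk k y T ⊆ Nat.smoothNumbersUpTo k (y + 1) ∪
    ((Ioc y k).biUnion (fun d => (Ioc 0 k).filter fun n => d ^ 2 ∣ n) ∪
      (Ioc 1 k).biUnion (fun d => (Ioc 0 k).filter fun n => d ^ (T + 2) ∣ n)) := by
  intro n hn
  obtain ⟨hn, hB⟩ := mem_sdiff.mp hn
  obtain ⟨h1, hk⟩ := mem_Icc.mp hn
  by_contra hc
  simp only [mem_union, not_or, mem_biUnion, mem_filter, mem_Ioc, not_exists, not_and,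
    Nat.mem_smoothNumbersUpTo] at hc
  obtain ⟨hs, h2, h3⟩ := hc
  have hs' := hs hk
  rw [Nat.mem_smoothNumbers'] at hs'
  push Not at hs'
  obtain ⟨p, hp, hpn, hpy⟩ := hs'
  have hne : n.primeFactors.Nonempty := ⟨p, Nat.mem_primeFactors.mpr ⟨hp, hpn, by omega⟩⟩
  have hq := Nat.mem_primeFactors.mp (n.primeFactors.max'_mem hne)
  have hmax : ∀ r, r.Prime → r ∣ n → r ≤ n.primeFactors.max' hne := fun r hr hrn =>
    Finset.le_max' _ _ (Nat.mem_primeFactors.mpr ⟨hr, hrn, by omega⟩)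
  generalize n.primeFactors.max' hne = q at hq hmax
  obtain ⟨hq, ⟨m, rfl⟩, _⟩ := hq
  have hyq : y < q := lt_of_lt_of_le hpy (hmax p hp hpn)
  have hm : 0 < m := Nat.pos_of_mul_pos_left h1
  have hqk : q ≤ k := (Nat.le_mul_of_pos_right q hm).trans hk
  apply hB
  simp only [Blk, mem_biUnion, mem_image, mem_range]
  refine ⟨q, by omega, m, mem_Mq.mpr ⟨hq, hyq, hm, ?_, ?_, ?_⟩, rfl⟩
  · rw [Nat.le_div_iff_mul_le hq.pos, mul_comm]
    exact hk
  · rw [Nat.mem_smoothNumbers']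
    intro r hr hrm
    refine lt_of_le_of_ne (hmax r hr (Dvd.dvd.mul_left hrm q)) ?_
    rintro rfl
    exact h2 r ⟨hyq, hqk⟩ ⟨h1, hk⟩ (by rw [sq]; exact Nat.mul_dvd_mul_left r hrm)
  · intro r
    by_contra hlt
    have hr : r.Prime := by
      by_contra hr
      rw [Nat.factorization_eq_zero_of_not_prime m hr] at hlt
      omega
    have hd : r ^ (T + 2) ∣ m := (hr.pow_dvd_iff_le_factorization hm.ne').mpr (by omega)
    have hrk : r ≤ k := (hmax r hr (Dvd.dvd.mul_left
      ((dvd_pow_self r (by omega)).trans hd) q)).trans hqk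
    exact h3 r ⟨hr.one_lt, hrk⟩ ⟨h1, hk⟩ (Dvd.dvd.mul_left hd q)

theorem sum_inv_sq_le (y k : ℕ) (hy : 0 < y) : ∑ d ∈ Ioc y k, ((d : ℝ) ^ 2)⁻¹ ≤ (y : ℝ)⁻¹ := by
  rcases le_total y k with h | h
  · refine (sum_Ioc_inv_sq_le_sub hy.ne' h).trans ?_
    have : (0 : ℝ) ≤ (k : ℝ)⁻¹ := by positivity
    linarith
  · rw [Finset.Ioc_eq_empty (by omega)]
    simp

theorem card_rest_le (k y T : ℕ) (hy : 0 < y) : ((Icc 1 k \ Blk k y T).card : ℝ) ≤
    2 ^ (y + 1) * Real.sqrt k + k / y + k / 2 ^ T := by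
  have h0 := Finset.card_le_card (rest_subset k y T)
  have h1 : ((Nat.smoothNumbersUpTo k (y + 1)).card : ℝ) ≤ 2 ^ (y + 1) * Real.sqrt k := by
    have h2 := Nat.smoothNumbersUpTo_card_le k (y + 1)
    have h3 : (y + 1).primesBelow.card ≤ y + 1 := by
      have := Finset.card_le_card (Finset.filter_subset Nat.Prime (range (y + 1)))
      simpa [Nat.primesBelow] using this
    have h4 : (Nat.smoothNumbersUpTo k (y + 1)).card ≤ 2 ^ (y + 1) * k.sqrt :=
      h2.trans (Nat.mul_le_mul_right _ (Nat.pow_le_pow_right (by norm_num) h3))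
    calc ((Nat.smoothNumbersUpTo k (y + 1)).card : ℝ) ≤ 2 ^ (y + 1) * (k.sqrt : ℝ) := by
          exact_mod_cast h4
      _ ≤ _ := mul_le_mul_of_nonneg_left Real.nat_sqrt_le_real_sqrt (by positivity)
  have h2 : ∀ (z e : ℕ), (((Ioc z k).biUnion
      (fun d => (Ioc 0 k).filter fun n => d ^ e ∣ n)).card : ℝ)
      ≤ ∑ d ∈ Ioc z k, (k : ℝ) / (d : ℝ) ^ e := by
    intro z e
    have h3 : ((Ioc z k).biUnion (fun d => (Ioc 0 k).filter fun n => d ^ e ∣ n)).card
        ≤ ∑ d ∈ Ioc z k, k / d ^ e :=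
      Finset.card_biUnion_le.trans (Finset.sum_le_sum fun d _ =>
        (Nat.Ioc_filter_dvd_card_eq_div k (d ^ e)).le)
    refine (Nat.cast_le.mpr h3).trans ?_
    rw [Nat.cast_sum]
    refine Finset.sum_le_sum fun d _ => Nat.cast_div_le.trans (by simp)
  have h3 : ∑ d ∈ Ioc y k, (k : ℝ) / (d : ℝ) ^ 2 ≤ k / y := by
    simp_rw [div_eq_mul_inv]
    rw [← Finset.mul_sum]
    exact mul_le_mul_of_nonneg_left (sum_inv_sq_le y k hy) (by positivity)
  have h4 : ∑ d ∈ Ioc 1 k, (k : ℝ) / (d : ℝ) ^ (T + 2) ≤ k / 2 ^ T := by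
    have h5 : ∀ d ∈ Ioc 1 k, (k : ℝ) / (d : ℝ) ^ (T + 2) ≤ k / 2 ^ T * ((d : ℝ) ^ 2)⁻¹ := by
      intro d hd
      have hd2 : (2 : ℝ) ≤ d := by exact_mod_cast (mem_Ioc.mp hd).1
      rw [pow_add, ← div_div, div_eq_mul_inv]
      gcongr
    refine (Finset.sum_le_sum h5).trans ?_
    rw [← Finset.mul_sum]
    refine mul_le_of_le_one_right (by positivity) ?_
    simpa using sum_inv_sq_le 1 k one_pos
  have h5 := h0.trans ((Finset.card_union_le _ _).trans
    (Nat.add_le_add_left (Finset.card_union_le _ _) _))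
  have h6 := (Nat.cast_le (α := ℝ)).mpr h5
  push_cast at h6
  linarith [h2 y 2, h2 1 (T + 2)]

theorem card_le_image_add {α β : Type*} [DecidableEq α] [DecidableEq β] (s : Finset α) (f : α → β) :
    s.card ≤ (s.image f).card + (s.offDiag.filter fun p => f p.1 = f p.2).card := by
  induction s using Finset.induction_on with
  | empty => simp
  | insert a s ha ih =>
    rw [Finset.card_insert_of_notMem ha, Finset.image_insert]
    have hsub : (s.offDiag.filter fun p => f p.1 = f p.2) ⊆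
        ((insert a s).offDiag.filter fun p => f p.1 = f p.2) :=
      Finset.filter_subset_filter _ (Finset.offDiag_mono (Finset.subset_insert a s))
    by_cases h : f a ∈ s.image f
    · obtain ⟨b, hb, hab⟩ := mem_image.mp h
      rw [Finset.insert_eq_of_mem h]
      have hlt : (s.offDiag.filter fun p => f p.1 = f p.2).card <
          ((insert a s).offDiag.filter fun p => f p.1 = f p.2).card := by
        refine Finset.card_lt_card ((Finset.ssubset_iff_of_subset hsub).mpr ⟨(a, b), ?_, ?_⟩)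
        · simp only [mem_filter, mem_offDiag, mem_insert]
          exact ⟨⟨Or.inl trivial, Or.inr hb, fun h => ha (h ▸ hb)⟩, hab.symm⟩
        · simp [ha]
      omega
    · rw [Finset.card_insert_of_notMem h]
      have := Finset.card_le_card hsub
      omega

end Pool.Agent.MP_f7711f_nt.H9
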