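import Mathlib

/-!
Covering a finite abelian group by successively placed random translates: first and second
moment of the uncovered fraction.
-/

namespace Pool.Agent.MP_f7711f_nt.H9

open Finset

section Pure

variable {G : Type*} [AddCommGroup G] [Fintype G] [DecidableEq G]

/-- Summing over all translates, the overlaps with `U` add up to `|U| |A|`. -/
theorem sum_inter_translate (U A : Finset G) (x : G) :
    ∑ c : G, (U ∩ A.image (fun a => x + c + a)).card = U.card * A.card := by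
  have h1 : ∀ c : G, (U ∩ A.image (fun a => x + c + a)).card
      = ∑ a ∈ A, if x + c + a ∈ U then 1 else 0 := by
    intro c
    rw [← Finset.card_filter]
    have : U ∩ A.image (fun a => x + c + a)
        = (A.filter (fun a => x + c + a ∈ U)).image (fun a => x + c + a) := by
      ext z
      simp only [mem_inter, mem_image, mem_filter]
      constructor
      · rintro ⟨hz, a, ha, rfl⟩
        exact ⟨a, ⟨ha, hz⟩, rfl⟩
      · rintro ⟨a, ⟨ha, hz⟩, rfl⟩
        exact ⟨hz, a, ha, rfl⟩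
    rw [this, Finset.card_image_of_injective _ (add_right_injective (x + c))]
  simp_rw [h1]
  rw [Finset.sum_comm]
  have h2 : ∀ a ∈ A, (∑ c : G, if x + c + a ∈ U then 1 else 0) = U.card := by
    intro a _
    rw [← Finset.card_filter]
    refine Finset.card_bij (fun c _ => x + c + a) ?_ ?_ ?_
    · intro c hc
      exact (mem_filter.mp hc).2
    · intro c _ d _ h
      exact add_left_cancel (add_right_cancel h)
    · intro z hz
      refine ⟨z - x - a, ?_, by abel⟩
      have : x + (z - x - a) + a = z := by abel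
      simp [this, hz]
  rw [Finset.sum_congr rfl h2, Finset.sum_const, smul_eq_mul, mul_comm]

/-- The fraction of `G` that a finite set occupies. -/
noncomputable def fr (S : Finset G) : ℝ := (S.card : ℝ) / Fintype.card G

omit [DecidableEq G] in
theorem cardG_pos : (0 : ℝ) < Fintype.card G := by exact_mod_cast Fintype.card_pos

omit [AddCommGroup G] [DecidableEq G] in
theorem fr_nonneg (S : Finset G) : 0 ≤ fr S := by unfold fr; positivity

omit [DecidableEq G] in
theorem fr_le_one (S : Finset G) : fr S ≤ 1 := by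
  unfold fr
  rw [div_le_one cardG_pos]
  exact_mod_cast Finset.card_le_univ S

omit [AddCommGroup G] in
theorem fr_sdiff (U B : Finset G) : fr (U \ B) = fr U - fr (U ∩ B) := by
  unfold fr
  rw [← sub_div]
  congr 1
  have := Finset.card_sdiff_add_card_inter U B
  have h : ((U \ B).card : ℝ) + (U ∩ B).card = U.card := by exact_mod_cast this
  linarith

theorem sum_fr_inter (U A : Finset G) (x : G) :
    ∑ c : G, fr (U ∩ A.image (fun a => x + c + a)) = Fintype.card G * (fr U * fr A) := by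
  unfold fr
  rw [← Finset.sum_div]
  have := sum_inter_translate U A x
  have h : ∑ c : G, ((U ∩ A.image (fun a => x + c + a)).card : ℝ) = U.card * A.card := by
    exact_mod_cast this
  rw [h]
  have := (cardG_pos (G := G)).ne'
  field_simp

theorem sum_fr_sdiff (U A : Finset G) (x : G) :
    ∑ c : G, fr (U \ A.image (fun a => x + c + a)) = Fintype.card G * (fr U * (1 - fr A)) := by
  simp_rw [fr_sdiff]
  rw [Finset.sum_sub_distrib, sum_fr_inter, Finset.sum_const, Finset.card_univ, nsmul_eq_mul]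
  ring

theorem sum_fr_sdiff_sq (U A : Finset G) (x : G) :
    ∑ c : G, fr (U \ A.image (fun a => x + c + a)) ^ 2
      ≤ Fintype.card G * (fr U ^ 2 * Real.exp (-(2 * fr A)) + fr A ^ 2) := by
  have hle : ∀ c : G, fr (U ∩ A.image (fun a => x + c + a)) ≤ fr A := by
    intro c
    unfold fr
    refine div_le_div_of_nonneg_right ?_ cardG_pos.le
    exact_mod_cast (Finset.card_le_card Finset.inter_subset_right).trans Finset.card_image_le
  have h1 : ∀ c : G, fr (U \ A.image (fun a => x + c + a)) ^ 2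
      ≤ fr U ^ 2 + (fr A - 2 * fr U) * fr (U ∩ A.image (fun a => x + c + a)) := by
    intro c
    rw [fr_sdiff]
    have h0 := fr_nonneg (U ∩ A.image (fun a => x + c + a))
    nlinarith [hle c]
  refine (Finset.sum_le_sum fun c _ => h1 c).trans ?_
  rw [Finset.sum_add_distrib, ← Finset.mul_sum, sum_fr_inter, Finset.sum_const, Finset.card_univ,
    nsmul_eq_mul]
  have he : 1 - 2 * fr A ≤ Real.exp (-(2 * fr A)) := by
    have := Real.add_one_le_exp (-(2 * fr A))
    linarith
  have hU := fr_nonneg U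
  have hU1 := fr_le_one U
  have hA := fr_nonneg A
  have h2 : fr U ^ 2 + (fr A - 2 * fr U) * (fr U * fr A)
      ≤ fr U ^ 2 * Real.exp (-(2 * fr A)) + fr A ^ 2 := by
    have h3 : fr U ^ 2 * (1 - 2 * fr A) ≤ fr U ^ 2 * Real.exp (-(2 * fr A)) :=
      mul_le_mul_of_nonneg_left he (sq_nonneg _)
    have h4 : fr A ^ 2 * fr U ≤ fr A ^ 2 := mul_le_of_le_one_right (sq_nonneg _) hU1
    nlinarith
  have := mul_le_mul_of_nonneg_left h2 (cardG_pos (G := G)).le
  nlinarith

end Pure

section Process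

variable {Ω G : Type*} [Fintype Ω] [AddCommGroup G] [Fintype G] [DecidableEq G]

omit [AddCommGroup G] [DecidableEq G] in
theorem shift_sum (τ : G → Ω ≃ Ω) (φ : Ω → ℝ) :
    (Fintype.card G : ℝ) * ∑ ω, φ ω = ∑ ω, ∑ c, φ (τ c ω) := by
  rw [Finset.sum_comm]
  have : ∀ c : G, ∑ ω, φ (τ c ω) = ∑ ω, φ ω := fun c => Equiv.sum_comp (τ c) φ
  simp [this]

/-- The part of `G` not covered by the first `N` translates. -/
def unc (x : ℕ → Ω → G) (A : ℕ → Ω → Finset G) : ℕ → Ω → Finset G
  | 0, _ => Finset.univ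
  | N + 1, ω => unc x A N ω \ (A N ω).image (fun a => x N ω + a)

/-- The shift `τ j c` moves the `j`-th position by `c` and fixes all earlier data. -/
structure Shifts (n : ℕ) (τ : ℕ → G → Ω ≃ Ω) (x : ℕ → Ω → G) (A : ℕ → Ω → Finset G) : Prop where
  hx : ∀ j < n, ∀ c ω, x j (τ j c ω) = x j ω + c
  hx' : ∀ j < n, ∀ i < j, ∀ c ω, x i (τ j c ω) = x i ω
  hA : ∀ j < n, ∀ i ≤ j, ∀ c ω, A i (τ j c ω) = A i ω

variable {n : ℕ} {τ : ℕ → G → Ω ≃ Ω} {x : ℕ → Ω → G} {A : ℕ → Ω → Finset G}

omit [Fintype Ω] in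
theorem Shifts.unc_eq (h : Shifts n τ x A) {j : ℕ} (hj : j < n) (c : G) (ω : Ω) :
    ∀ N ≤ j, unc x A N (τ j c ω) = unc x A N ω := by
  intro N
  induction N with
  | zero => intro _; rfl
  | succ N ih =>
    intro hN
    simp only [unc]
    rw [ih (by omega), h.hA j hj N (by omega), h.hx' j hj N (by omega)]

omit [Fintype Ω] in
theorem Shifts.unc_succ (h : Shifts n τ x A) {j : ℕ} (hj : j < n) (c : G) (ω : Ω) :
    unc x A (j + 1) (τ j c ω) = unc x A j ω \ (A j ω).image (fun a => x j ω + c + a) := by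
  simp only [unc]
  rw [h.unc_eq hj c ω j le_rfl, h.hA j hj j le_rfl, h.hx j hj]

theorem first_moment (h : Shifts n τ x A) (b : ℕ → ℝ) (hb : ∀ j ω, fr (A j ω) ≤ b j)
    (hb0 : ∀ j, 0 ≤ b j) (hb1 : ∑ j ∈ range n, b j ≤ 1) :
    ∀ N ≤ n, (Fintype.card Ω : ℝ) * (1 - 3 * ∑ j ∈ range N, b j ^ 2)
      ≤ (∑ ω, fr (unc x A N ω)) * Real.exp (∑ j ∈ range N, b j) := by
  intro N
  induction N with
  | zero =>
    intro _
    have : fr (Finset.univ : Finset G) = 1 := by
      unfold fr
      rw [Finset.card_univ, div_self cardG_pos.ne']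
    simp [unc, this]
  | succ N ih =>
    intro hN
    have ih := ih (by omega)
    have hs : (1 - b N) * ∑ ω, fr (unc x A N ω) ≤ ∑ ω, fr (unc x A (N + 1) ω) := by
      refine le_of_mul_le_mul_left ?_ (cardG_pos (G := G))
      rw [shift_sum (τ N) (fun ω => fr (unc x A (N + 1) ω)), Finset.mul_sum, Finset.mul_sum]
      refine Finset.sum_le_sum fun ω _ => ?_
      simp_rw [h.unc_succ (show N < n by omega)]
      rw [sum_fr_sdiff]
      refine mul_le_mul_of_nonneg_left ?_ cardG_pos.le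
      nlinarith [fr_nonneg (unc x A N ω), hb N ω]
    rw [Finset.sum_range_succ, Finset.sum_range_succ, Real.exp_add]
    set W := ∑ ω, fr (unc x A N ω) with hW
    set B := ∑ j ∈ range N, b j with hB
    have hW0 : 0 ≤ W := Finset.sum_nonneg fun ω _ => fr_nonneg _
    have hW1 : W ≤ Fintype.card Ω := by
      have := Finset.sum_le_sum (s := Finset.univ) fun ω _ => fr_le_one (unc x A N ω)
      simpa using this
    have hBN : B + b N ≤ 1 := by
      refine le_trans ?_ hb1
      rw [hB, ← Finset.sum_range_succ]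
      exact Finset.sum_le_sum_of_subset_of_nonneg (Finset.range_mono hN) fun j _ _ => hb0 j
    have hB0 : 0 ≤ B := Finset.sum_nonneg fun j _ => hb0 j
    have hE3 : Real.exp B ≤ 3 := by
      have : Real.exp B ≤ Real.exp 1 := Real.exp_le_exp.mpr (by linarith [hb0 N])
      linarith [Real.exp_one_lt_d9]
    have hE0 := Real.exp_pos B
    have h1 : 1 - b N ^ 2 ≤ (1 - b N) * Real.exp (b N) := by
      have := Real.add_one_le_exp (b N)
      nlinarith [hb0 N]
    have h2 : W * Real.exp B * (1 - b N ^ 2) ≤ W * Real.exp B * ((1 - b N) * Real.exp (b N)) :=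
      mul_le_mul_of_nonneg_left h1 (by positivity)
    have h3 : (1 - b N) * W * (Real.exp B * Real.exp (b N))
        ≤ (∑ ω, fr (unc x A (N + 1) ω)) * (Real.exp B * Real.exp (b N)) :=
      mul_le_mul_of_nonneg_right hs (by positivity)
    have h4 : W * Real.exp B * b N ^ 2 ≤ Fintype.card Ω * 3 * b N ^ 2 :=
      mul_le_mul_of_nonneg_right (mul_le_mul hW1 hE3 hE0.le (by positivity)) (sq_nonneg _)
    nlinarith

theorem second_moment (h : Shifts n τ x A) (b : ℕ → ℝ) (hb : ∀ j ω, fr (A j ω) ≤ b j)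
    (hb0 : ∀ j, 0 ≤ b j) (hb1 : ∑ j ∈ range n, b j ≤ 1) :
    ∀ N ≤ n, ∑ ω, fr (unc x A N ω) ^ 2 * Real.exp (2 * ∑ j ∈ range N, fr (A j ω))
      ≤ (Fintype.card Ω : ℝ) * (1 + 9 * ∑ j ∈ range N, b j ^ 2) := by
  intro N
  induction N with
  | zero =>
    intro _
    have : fr (Finset.univ : Finset G) = 1 := by
      unfold fr
      rw [Finset.card_univ, div_self cardG_pos.ne']
    simp [unc, this]
  | succ N ih =>
    intro hN
    have ih := ih (by omega)
    have hNn : N < n := by omega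
    have hs : ∑ ω, fr (unc x A (N + 1) ω) ^ 2 * Real.exp (2 * ∑ j ∈ range (N + 1), fr (A j ω))
        ≤ ∑ ω, (fr (unc x A N ω) ^ 2 * Real.exp (2 * ∑ j ∈ range N, fr (A j ω))
          + 9 * b N ^ 2) := by
      refine le_of_mul_le_mul_left ?_ (cardG_pos (G := G))
      rw [shift_sum (τ N) (fun ω => fr (unc x A (N + 1) ω) ^ 2
        * Real.exp (2 * ∑ j ∈ range (N + 1), fr (A j ω))), Finset.mul_sum]
      refine Finset.sum_le_sum fun ω _ => ?_
      have hc : ∀ c, ∑ j ∈ range (N + 1), fr (A j (τ N c ω)) = ∑ j ∈ range (N + 1), fr (A j ω) :=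
        fun c => Finset.sum_congr rfl fun j hj => by
          rw [h.hA N hNn j (by simpa [Nat.lt_succ_iff] using hj)]
      simp_rw [h.unc_succ hNn, hc]
      rw [← Finset.sum_mul]
      refine (mul_le_mul_of_nonneg_right (sum_fr_sdiff_sq _ _ _) (Real.exp_pos _).le).trans ?_
      rw [mul_assoc]
      refine mul_le_mul_of_nonneg_left ?_ cardG_pos.le
      have hS : ∑ j ∈ range (N + 1), fr (A j ω) ≤ 1 := by
        refine le_trans (Finset.sum_le_sum fun j _ => hb j ω) (le_trans ?_ hb1)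
        exact Finset.sum_le_sum_of_subset_of_nonneg (Finset.range_mono hN) fun j _ _ => hb0 j
      have hE : Real.exp (2 * ∑ j ∈ range (N + 1), fr (A j ω)) ≤ 9 := by
        have h1 : Real.exp (2 * ∑ j ∈ range (N + 1), fr (A j ω)) ≤ Real.exp (1 + 1) :=
          Real.exp_le_exp.mpr (by linarith)
        rw [Real.exp_add] at h1
        nlinarith [Real.exp_one_lt_d9, Real.exp_pos 1]
      have hE2 : Real.exp (-(2 * fr (A N ω))) * Real.exp (2 * ∑ j ∈ range (N + 1), fr (A j ω))
          = Real.exp (2 * ∑ j ∈ range N, fr (A j ω)) := by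
        rw [← Real.exp_add, Finset.sum_range_succ]
        congr 1
        ring
      have hq : fr (A N ω) ^ 2 ≤ b N ^ 2 := pow_le_pow_left₀ (fr_nonneg _) (hb N ω) 2
      have h5 : fr (A N ω) ^ 2 * Real.exp (2 * ∑ j ∈ range (N + 1), fr (A j ω)) ≤ b N ^ 2 * 9 :=
        mul_le_mul hq hE (Real.exp_pos _).le (sq_nonneg _)
      rw [add_mul, mul_assoc, hE2]
      linarith
    rw [Finset.sum_add_distrib, Finset.sum_const, Finset.card_univ, nsmul_eq_mul] at hs
    rw [Finset.sum_range_succ (fun j => b j ^ 2)]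
    nlinarith

/-- The uncovered fraction is close to `1/e` in mean square. -/
theorem mean_square (h : Shifts n τ x A) (b : ℕ → ℝ) (hb : ∀ j ω, fr (A j ω) ≤ b j)
    (hb0 : ∀ j, 0 ≤ b j) (hb1 : ∑ j ∈ range n, b j ≤ 1) {η : ℝ} (hη : 0 < η) (hη4 : η ≤ 1 / 4)
    (hb2 : ∑ j ∈ range n, b j ^ 2 ≤ η) (hb3 : 1 - η ≤ ∑ j ∈ range n, b j)
    (hR : ∑ ω, ∑ j ∈ range n, (b j - fr (A j ω)) ≤ Fintype.card Ω * η ^ 2) :
    ∑ ω, (fr (unc x A n ω) - Real.exp (-1)) ^ 2 ≤ Fintype.card Ω * (42 * η) := by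
  have h1 := first_moment h b hb hb0 hb1 n le_rfl
  have h2 := second_moment h b hb hb0 hb1 n le_rfl
  set K : ℝ := (Fintype.card Ω : ℝ) with hK
  have hK0 : 0 ≤ K := by positivity
  set e := Real.exp (-1) with he
  have he0 : 0 < e := Real.exp_pos _
  have he1 : e ≤ 1 := Real.exp_le_one_iff.mpr (by norm_num)
  have hW0 : 0 ≤ ∑ ω, fr (unc x A n ω) := Finset.sum_nonneg fun ω _ => fr_nonneg _
  have h3 : K * (1 - 3 * η) * e ≤ ∑ ω, fr (unc x A n ω) := by
    have h4 : K * (1 - 3 * η) ≤ (∑ ω, fr (unc x A n ω)) * Real.exp 1 := by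
      refine le_trans ?_ (h1.trans (mul_le_mul_of_nonneg_left (Real.exp_le_exp.mpr hb1) hW0))
      exact mul_le_mul_of_nonneg_left (by linarith) hK0
    have h5 := mul_le_mul_of_nonneg_right h4 he0.le
    rw [mul_assoc (∑ ω, fr (unc x A n ω)), he, ← Real.exp_add] at h5
    simpa using h5
  have h6 : ∀ ω, fr (unc x A n ω) ^ 2
      ≤ fr (unc x A n ω) ^ 2 * Real.exp (2 * ∑ j ∈ range n, fr (A j ω)) * (e ^ 2 * (1 + 8 * η))
        + (∑ j ∈ range n, (b j - fr (A j ω))) / η := by
    intro ω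
    have hR0 : 0 ≤ ∑ j ∈ range n, (b j - fr (A j ω)) :=
      Finset.sum_nonneg fun j _ => sub_nonneg.mpr (hb j ω)
    by_cases hc : ∑ j ∈ range n, (b j - fr (A j ω)) ≤ η
    · have h7 : 1 ≤ Real.exp (2 * ∑ j ∈ range n, fr (A j ω)) * (e ^ 2 * (1 + 8 * η)) := by
        have h8 : Real.exp (4 * η) ≤ 1 + 8 * η := by
          have := Real.abs_exp_sub_one_le (x := 4 * η) (by rw [abs_of_pos (by linarith)]; linarith)
          rw [abs_of_pos (show 0 < 4 * η by linarith)] at this
          linarith [le_abs_self (Real.exp (4 * η) - 1)]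
        have h9 : 1 ≤ Real.exp (2 * ∑ j ∈ range n, fr (A j ω)) * (e ^ 2 * Real.exp (4 * η)) := by
          rw [he, sq, ← Real.exp_add, ← Real.exp_add, ← Real.exp_add]
          rw [Finset.sum_sub_distrib] at hc
          exact Real.one_le_exp (by linarith)
        exact h9.trans (by gcongr)
      have := mul_le_mul_of_nonneg_left h7 (sq_nonneg (fr (unc x A n ω)))
      have h10 : 0 ≤ (∑ j ∈ range n, (b j - fr (A j ω))) / η := by positivity
      nlinarith
    · have h7 : 1 ≤ (∑ j ∈ range n, (b j - fr (A j ω))) / η := by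
        rw [le_div_iff₀ hη]
        linarith
      have h8 : fr (unc x A n ω) ^ 2 ≤ 1 := pow_le_one₀ (fr_nonneg _) (fr_le_one _)
      have h9 : 0 ≤ fr (unc x A n ω) ^ 2 * Real.exp (2 * ∑ j ∈ range n, fr (A j ω))
        * (e ^ 2 * (1 + 8 * η)) := by positivity
      linarith
  have h7 : ∑ ω, fr (unc x A n ω) ^ 2 ≤ K * (1 + 9 * η) * (e ^ 2 * (1 + 8 * η)) + K * η := by
    refine (Finset.sum_le_sum fun ω _ => h6 ω).trans ?_
    rw [Finset.sum_add_distrib, ← Finset.sum_mul, ← Finset.sum_div]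
    refine add_le_add (mul_le_mul_of_nonneg_right (h2.trans ?_) (by positivity)) ?_
    · exact mul_le_mul_of_nonneg_left (by linarith) hK0
    · rw [div_le_iff₀ hη]
      nlinarith
  have h8 : ∑ ω, (fr (unc x A n ω) - e) ^ 2
      = ∑ ω, fr (unc x A n ω) ^ 2 - 2 * e * ∑ ω, fr (unc x A n ω) + K * e ^ 2 := by
    simp_rw [sub_sq]
    rw [Finset.sum_add_distrib, Finset.sum_sub_distrib, Finset.sum_const, Finset.card_univ,
      nsmul_eq_mul, Finset.mul_sum]
    congr 2
    exact Finset.sum_congr rfl fun ω _ => by ring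
  rw [h8]
  have h9 : 2 * e * (K * (1 - 3 * η) * e) ≤ 2 * e * ∑ ω, fr (unc x A n ω) :=
    mul_le_mul_of_nonneg_left h3 (by positivity)
  have h10 : e ^ 2 * (23 * η + 72 * η ^ 2) ≤ 41 * η := by
    have : e ^ 2 ≤ 1 := pow_le_one₀ he0.le he1
    have h11 : 23 * η + 72 * η ^ 2 ≤ 41 * η := by nlinarith
    nlinarith [mul_le_mul_of_nonneg_right this (show 0 ≤ 23 * η + 72 * η ^ 2 by positivity)]
  have h11 := mul_le_mul_of_nonneg_left h10 hK0
  nlinarith

end Process

end Pool.Agent.MP_f7711f_nt.H9
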