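import Pool.Agent.MP_f7711f_nt.H9.Cover
import Pool.Agent.MP_f7711f_nt.H9.Blocks

/-!
The image of a random completely additive function on the integers up to `k` with values mod `k`.
-/

namespace Pool.Agent.MP_f7711f_nt.H9

open Finset

variable {k : ℕ} [NeZero k]

/-- The completely additive function with prescribed values at the primes. -/
def F (ω : Fin (k + 1) → ZMod k) (n : ℕ) : ZMod k := ∑ i : Fin (k + 1), n.factorization i • ω i

omit [NeZero k] in
theorem F_mul (ω : Fin (k + 1) → ZMod k) {a b : ℕ} (ha : a ≠ 0) (hb : b ≠ 0) :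
    F ω (a * b) = F ω a + F ω b := by
  simp only [F, Nat.factorization_mul ha hb, Finsupp.add_apply, add_smul, Finset.sum_add_distrib]

omit [NeZero k] in
theorem F_add (ω ω' : Fin (k + 1) → ZMod k) (n : ℕ) : F (ω + ω') n = F ω n + F ω' n := by
  simp only [F, Pi.add_apply, smul_add, Finset.sum_add_distrib]

omit [NeZero k] in
theorem F_single (r : Fin (k + 1)) (c : ZMod k) (n : ℕ) :
    F (Pi.single r c) n = n.factorization r • c := by
  unfold F
  rw [Finset.sum_eq_single r]
  · simp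
  · intro i _ hi
    simp [hi]
  · simp

omit [NeZero k] in
theorem F_prime (ω : Fin (k + 1) → ZMod k) (p : Fin (k + 1)) (hp : (p : ℕ).Prime) :
    F ω p = ω p := by
  unfold F
  rw [Finset.sum_eq_single p]
  · simp [hp.factorization]
  · intro i _ hi
    have : (p : ℕ) ≠ i := fun h => hi (Fin.ext h.symm)
    simp [hp.factorization, this]
  · simp

theorem card_nsmul_eq_le {e : ℕ} (he : 0 < e) (t : ZMod k) :
    (univ.filter fun c : ZMod k => e • c = t).card ≤ e := by
  rcases (univ.filter fun c : ZMod k => e • c = t).eq_empty_or_nonempty with h | ⟨c₀, h⟩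
  · rw [h]
    exact Nat.zero_le _
  · refine le_trans ?_ (IsAddCyclic.card_nsmul_eq_zero_le (α := ZMod k) he)
    refine Finset.card_le_card_of_injOn (fun c => c - c₀) ?_ ?_
    · intro c hc
      have h1 := (mem_filter.mp (Finset.mem_coe.mp hc)).2
      have h2 := (mem_filter.mp h).2
      simp only [coe_filter, mem_univ, true_and, Set.mem_ofPred_eq]
      rw [smul_sub, h1, h2, sub_self]
    · intro c _ d _ h
      exact sub_left_injective h

theorem collision_aux {T m m' : ℕ} (r : Fin (k + 1)) (hT : m.factorization r ≤ T)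
    (hlt : m'.factorization r < m.factorization r) :
    (k : ℝ) * ∑ ω : Fin (k + 1) → ZMod k, (if F ω m = F ω m' then (1 : ℝ) else 0)
      ≤ Fintype.card (Fin (k + 1) → ZMod k) * T := by
  have h := shift_sum (fun c : ZMod k => Equiv.addRight (Pi.single r c : Fin (k + 1) → ZMod k))
    (fun ω => if F ω m = F ω m' then (1 : ℝ) else 0)
  rw [ZMod.card] at h
  rw [h, ← Finset.card_univ, ← nsmul_eq_mul, ← Finset.sum_const]
  refine Finset.sum_le_sum fun ω _ => ?_
  obtain ⟨e, he⟩ := Nat.exists_eq_add_of_lt hlt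
  have h1 : ∀ c : ZMod k, (F (ω + Pi.single r c) m = F (ω + Pi.single r c) m')
      ↔ (e + 1) • c = F ω m' - F ω m := by
    intro c
    rw [F_add, F_add, F_single, F_single, he, add_assoc, add_smul]
    constructor <;> intro h2 <;> linear_combination h2
  simp only [Equiv.coe_addRight, h1, Finset.sum_boole]
  exact_mod_cast (card_nsmul_eq_le (Nat.succ_pos e) _).trans (by omega)

theorem collision {T m m' : ℕ} (hm : 1 ≤ m) (hmk : m ≤ k) (hm' : 1 ≤ m') (hmk' : m' ≤ k)
    (hT : ∀ p, m.factorization p ≤ T) (hT' : ∀ p, m'.factorization p ≤ T) (hne : m ≠ m') :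
    (k : ℝ) * ∑ ω : Fin (k + 1) → ZMod k, (if F ω m = F ω m' then (1 : ℝ) else 0)
      ≤ Fintype.card (Fin (k + 1) → ZMod k) * T := by
  have h : ∃ r, m.factorization r ≠ m'.factorization r := by
    by_contra hc
    push Not at hc
    exact hne (Nat.eq_of_factorization_eq (by omega) (by omega) hc)
  obtain ⟨r, hr⟩ := h
  have hle : ∀ n, 1 ≤ n → n ≤ k → n.factorization r ≠ 0 → r < k + 1 := fun n h1 h2 h3 =>
    Nat.lt_succ_of_le ((Nat.le_of_dvd h1 (Nat.dvd_of_factorization_pos h3)).trans h2)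
  rcases lt_or_gt_of_ne hr with hlt | hlt
  · have := collision_aux (k := k) (m := m') (m' := m) ⟨r, hle m' hm' hmk' (by omega)⟩ (hT' r) hlt
    simpa only [eq_comm] using this
  · exact collision_aux (k := k) ⟨r, hle m hm hmk (by omega)⟩ (hT r) hlt

theorem loss (y T q : ℕ) : ∑ ω : Fin (k + 1) → ZMod k,
    (((Mq k y T q).card : ℝ) / k - fr ((Mq k y T q).image (F ω)))
      ≤ Fintype.card (Fin (k + 1) → ZMod k) * ((T + 1) * (((Mq k y T q).card : ℝ) / k) ^ 2) := by
  have hk : (0 : ℝ) < k := by exact_mod_cast Nat.pos_of_ne_zero (NeZero.ne k)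
  set M := Mq k y T q with hM
  have h1 : ∀ ω : Fin (k + 1) → ZMod k, (M.card : ℝ) / k - fr (M.image (F ω))
      ≤ (∑ p ∈ M.offDiag, if F ω p.1 = F ω p.2 then (1 : ℝ) else 0) / k := by
    intro ω
    unfold fr
    rw [ZMod.card, ← sub_div, Finset.sum_boole]
    refine div_le_div_of_nonneg_right ?_ hk.le
    have := (Nat.cast_le (α := ℝ)).mpr (card_le_image_add M (F ω))
    push_cast at this
    linarith
  refine (Finset.sum_le_sum fun ω _ => h1 ω).trans ?_
  rw [← Finset.sum_div, Finset.sum_comm, div_le_iff₀ hk]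
  refine le_of_mul_le_mul_left ?_ hk
  rw [Finset.mul_sum]
  have h2 : ∀ p ∈ M.offDiag,
      (k : ℝ) * ∑ ω : Fin (k + 1) → ZMod k, (if F ω p.1 = F ω p.2 then (1 : ℝ) else 0)
      ≤ Fintype.card (Fin (k + 1) → ZMod k) * (T + 1 : ℕ) := by
    intro p hp
    obtain ⟨h3, h4, h5⟩ := mem_offDiag.mp hp
    obtain ⟨_, _, a1, a2, _, a3⟩ := mem_Mq.mp h3
    obtain ⟨_, _, b1, b2, _, b3⟩ := mem_Mq.mp h4
    exact collision a1 (a2.trans (Nat.div_le_self _ _)) b1 (b2.trans (Nat.div_le_self _ _))
      a3 b3 h5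
  refine (Finset.sum_le_sum h2).trans ?_
  rw [Finset.sum_const, nsmul_eq_mul]
  have h3 : (M.offDiag.card : ℝ) ≤ (M.card : ℝ) ^ 2 := by
    have : M.offDiag.card ≤ M.card ^ 2 := by
      rw [Finset.offDiag_card, sq]
      exact Nat.sub_le _ _
    exact_mod_cast this
  refine (mul_le_mul_of_nonneg_right h3 (by positivity)).trans (le_of_eq ?_)
  push_cast
  field_simp

omit [NeZero k] in
theorem shifts (y T : ℕ) : Shifts (k + 1)
    (fun j (c : ZMod k) => Equiv.addRight (Pi.single (Fin.ofNat (k + 1) j) c : Fin (k + 1) → ZMod k))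
    (fun j ω => ω (Fin.ofNat (k + 1) j)) (fun j ω => (Mq k y T j).image (F ω)) where
  hx := fun j _ c ω => by simp
  hx' := fun j hj i hi c ω => by
    have : Fin.ofNat (k + 1) i ≠ Fin.ofNat (k + 1) j := by
      intro h
      have := congrArg Fin.val h
      simp only [Fin.val_ofNat, Nat.mod_eq_of_lt hj, Nat.mod_eq_of_lt (hi.trans hj)] at this
      omega
    simp only [Equiv.coe_addRight, Pi.add_apply, Pi.single_eq_of_ne this, add_zero]
  hA := fun j hj i hi c ω => by
    refine Finset.image_congr fun m hm => ?_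
    obtain ⟨_, _, _, _, hs, _⟩ := mem_Mq.mp (Finset.mem_coe.mp hm)
    have : m.factorization j = 0 := by
      by_contra h
      have h1 := Nat.mem_smoothNumbers'.mp hs j
        (Nat.prime_of_mem_primeFactors (Finsupp.mem_support_iff.mpr h))
        (Nat.dvd_of_factorization_pos h)
      omega
    simp only [Equiv.coe_addRight, F_add, F_single, Fin.val_ofNat, Nat.mod_eq_of_lt hj, this,
      zero_smul, add_zero]

theorem unc_eq (y T : ℕ) (ω : Fin (k + 1) → ZMod k) : ∀ N ≤ k + 1,
    unc (fun j ω => ω (Fin.ofNat (k + 1) j)) (fun j ω => (Mq k y T j).image (F ω)) N ω =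
      univ \ ((range N).biUnion fun q => (Mq k y T q).image fun m => q * m).image (F ω) := by
  intro N
  induction N with
  | zero => intro _; simp [unc]
  | succ N ih =>
    intro hN
    have h1 : ((Mq k y T N).image (F ω)).image (fun a => ω (Fin.ofNat (k + 1) N) + a)
        = ((Mq k y T N).image fun m => N * m).image (F ω) := by
      rw [Finset.image_image, Finset.image_image]
      refine Finset.image_congr fun m hm => ?_
      obtain ⟨hp, _, hm1, _⟩ := mem_Mq.mp (Finset.mem_coe.mp hm)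
      have hv : ((Fin.ofNat (k + 1) N : Fin (k + 1)) : ℕ) = N := by
        simp only [Fin.val_ofNat, Nat.mod_eq_of_lt hN]
      have := F_prime ω (Fin.ofNat (k + 1) N) (by rwa [hv])
      rw [hv] at this
      simp only [Function.comp_apply]
      rw [F_mul ω hp.ne_zero (by omega), this]
    simp only [unc]
    rw [ih (by omega), h1, Finset.range_add_one, Finset.biUnion_insert, Finset.image_union,
      sdiff_sdiff_left, Finset.sup_eq_union, Finset.union_comm]

theorem lln_aux (y T : ℕ) (hy : 0 < y) {η : ℝ} (hη : 0 < η) (hη4 : η ≤ 1 / 4)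
    (h1 : (1 : ℝ) / 2 ^ T ≤ η / 3) (h2 : (1 : ℝ) / y ≤ η / 3) (h3 : ((T : ℝ) + 1) / y ≤ η ^ 2)
    (h4 : 2 ^ (y + 1) * Real.sqrt k ≤ η / 3 * k) {ε : ℝ} (hε : 0 < ε) (hηε : η ≤ ε / 2)
    (hηε' : 168 * η ≤ ε ^ 3) :
    ((univ.filter fun ω : Fin (k + 1) → ZMod k =>
      ε < |(((Icc 1 k).image (F ω)).card : ℝ) / k - (1 - Real.exp (-1))|).card : ℝ)
      ≤ ε * Fintype.card (Fin (k + 1) → ZMod k) := by
  have hk : (0 : ℝ) < k := by exact_mod_cast Nat.pos_of_ne_zero (NeZero.ne k)
  have hy' : (0 : ℝ) < y := by exact_mod_cast hy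
  have hrest : ((Icc 1 k \ Blk k y T).card : ℝ) ≤ η * k := by
    have h5 := card_rest_le k y T hy
    have h6 := mul_le_mul_of_nonneg_right h1 hk.le
    have h7 := mul_le_mul_of_nonneg_right h2 hk.le
    rw [one_div_mul_eq_div] at h6 h7
    linarith
  have hsum : ∑ j ∈ range (k + 1), ((Mq k y T j).card : ℝ) / k = (Blk k y T).card / k := by
    rw [card_Blk, ← Finset.sum_div, Nat.cast_sum]
  have hcard : ((Icc 1 k \ Blk k y T).card : ℝ) + (Blk k y T).card = k := by
    have := Finset.card_sdiff_add_card_eq_card (Blk_subset k y T)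
    rw [Nat.card_Icc, Nat.add_sub_cancel] at this
    exact_mod_cast this
  have hb1 : ∑ j ∈ range (k + 1), ((Mq k y T j).card : ℝ) / k ≤ 1 := by
    rw [hsum, div_le_one hk]
    have : (0 : ℝ) ≤ (Icc 1 k \ Blk k y T).card := by positivity
    linarith
  have hb2 : ∑ j ∈ range (k + 1), (((Mq k y T j).card : ℝ) / k) ^ 2 ≤ 1 / y := by
    have h5 : ∀ j ∈ range (k + 1), (((Mq k y T j).card : ℝ) / k) ^ 2
        ≤ 1 / y * (((Mq k y T j).card : ℝ) / k) := by
      intro j _
      rw [sq]
      refine mul_le_mul_of_nonneg_right ?_ (by positivity)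
      rw [div_le_iff₀ hk, one_div_mul_eq_div]
      exact card_Mq_le k y T j hy
    refine (Finset.sum_le_sum h5).trans ?_
    rw [← Finset.mul_sum]
    exact mul_le_of_le_one_right (by positivity) hb1
  have hms := mean_square (shifts (k := k) y T) (fun j => ((Mq k y T j).card : ℝ) / k)
    (fun j ω => by
      unfold fr
      rw [ZMod.card]
      exact div_le_div_of_nonneg_right (by exact_mod_cast Finset.card_image_le) hk.le)
    (fun j => by positivity) hb1 hη hη4 (by linarith) (by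
      rw [hsum, le_div_iff₀ hk]
      linarith) (by
      rw [Finset.sum_comm]
      refine (Finset.sum_le_sum fun j _ => loss y T j).trans ?_
      rw [← Finset.mul_sum, ← Finset.mul_sum]
      refine mul_le_mul_of_nonneg_left (le_trans ?_ h3) (by positivity)
      rw [div_eq_mul_one_div]
      exact mul_le_mul_of_nonneg_left hb2 (by positivity))
  simp only [unc_eq y T _ (k + 1) le_rfl] at hms
  change ∑ ω : Fin (k + 1) → ZMod k,
    (fr (univ \ (Blk k y T).image (F ω)) - Real.exp (-1)) ^ 2 ≤ _ at hms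
  set bad := univ.filter fun ω : Fin (k + 1) → ZMod k =>
      ε < |(((Icc 1 k).image (F ω)).card : ℝ) / k - (1 - Real.exp (-1))| with hbad
  have hpt : ∀ ω ∈ bad, (ε / 2) ^ 2 ≤ (fr (univ \ (Blk k y T).image (F ω)) - Real.exp (-1)) ^ 2 := by
    intro ω hω
    have h5 := (mem_filter.mp hω).2
    have h6 : fr (univ \ (Blk k y T).image (F ω)) = 1 - (((Blk k y T).image (F ω)).card : ℝ) / k := by
      rw [fr_sdiff, Finset.univ_inter]
      unfold fr
      rw [Finset.card_univ, ZMod.card, div_self hk.ne']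
    have h7 : (((Blk k y T).image (F ω)).card : ℝ) / k ≤ (((Icc 1 k).image (F ω)).card : ℝ) / k :=
      div_le_div_of_nonneg_right (by
        exact_mod_cast Finset.card_le_card (Finset.image_subset_image (Blk_subset k y T))) hk.le
    have h8 : (((Icc 1 k).image (F ω)).card : ℝ) / k
        ≤ (((Blk k y T).image (F ω)).card : ℝ) / k + η := by
      have h9 : ((Icc 1 k).image (F ω)).card
          ≤ ((Blk k y T).image (F ω)).card + (Icc 1 k \ Blk k y T).card := by
        conv_lhs => rw [← Finset.union_sdiff_of_subset (Blk_subset k y T), Finset.image_union]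
        exact (Finset.card_union_le _ _).trans (Nat.add_le_add_left Finset.card_image_le _)
      have h10 := (Nat.cast_le (α := ℝ)).mpr h9
      push_cast at h10
      rw [div_add' _ _ _ hk.ne']
      exact div_le_div_of_nonneg_right (by linarith) hk.le
    rw [h6, sq_le_sq, abs_of_pos (half_pos hε)]
    rcases lt_abs.mp h5 with h | h
    · exact le_abs.mpr (Or.inr (by linarith))
    · exact le_abs.mpr (Or.inl (by linarith))
  have h5 := (Finset.sum_le_sum hpt).trans ((Finset.sum_le_sum_of_subset_of_nonneg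
    (Finset.subset_univ bad) fun _ _ _ => sq_nonneg _).trans hms)
  rw [Finset.sum_const, nsmul_eq_mul] at h5
  have hK : (0 : ℝ) ≤ Fintype.card (Fin (k + 1) → ZMod k) := by positivity
  refine le_of_mul_le_mul_right ?_ (show 0 < (ε / 2) ^ 2 by positivity)
  have h6 := mul_le_mul_of_nonneg_left hηε' hK
  nlinarith

theorem lln {ε : ℝ} (hε : 0 < ε) : ∃ k₀ : ℕ, ∀ (k : ℕ) [NeZero k], k₀ ≤ k →
    ((univ.filter fun ω : Fin (k + 1) → ZMod k =>
      ε < |(((Icc 1 k).image (F ω)).card : ℝ) / k - (1 - Real.exp (-1))|).card : ℝ)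
      ≤ ε * Fintype.card (Fin (k + 1) → ZMod k) := by
  obtain ⟨η, hη, hη4, h1, h2⟩ : ∃ η : ℝ, 0 < η ∧ η ≤ 1 / 4 ∧ η ≤ ε / 2 ∧ 168 * η ≤ ε ^ 3 := by
    refine ⟨min (1 / 4) (min (ε / 2) (ε ^ 3 / 168)), by positivity, min_le_left _ _,
      (min_le_right _ _).trans (min_le_left _ _), ?_⟩
    have : min (1 / 4) (min (ε / 2) (ε ^ 3 / 168)) ≤ ε ^ 3 / 168 :=
      (min_le_right _ _).trans (min_le_right _ _)
    linarith
  obtain ⟨T, hT⟩ := exists_pow_lt_of_lt_one (show 0 < η / 3 by positivity)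
    (show (1 / 2 : ℝ) < 1 by norm_num)
  obtain ⟨y, hy⟩ := exists_nat_gt (3 / η + (T + 1) / η ^ 2)
  have ha : (0 : ℝ) < 3 / η := by positivity
  have hb : (0 : ℝ) < (T + 1) / η ^ 2 := by positivity
  have hy0 : (0 : ℝ) < y := by linarith
  obtain ⟨k₀, hk₀⟩ := exists_nat_gt ((2 ^ (y + 1) * (3 / η) : ℝ) ^ 2)
  refine ⟨k₀, fun k _ hk => lln_aux y T (by exact_mod_cast hy0) hη hη4 ?_ ?_ ?_ ?_ hε h1 h2⟩
  · rw [one_div, ← inv_pow, ← one_div]
    exact hT.le
  · rw [div_le_div_iff₀ hy0 (by norm_num)]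
    have : 3 / η ≤ y := by linarith
    rw [div_le_iff₀ hη] at this
    linarith
  · rw [div_le_iff₀ hy0]
    have : (T + 1) / η ^ 2 ≤ y := by linarith
    rw [div_le_iff₀ (by positivity)] at this
    linarith
  · have h3 : 2 ^ (y + 1) * (3 / η) ≤ Real.sqrt k :=
      Real.le_sqrt_of_sq_le (hk₀.le.trans (by exact_mod_cast hk))
    have h4 : Real.sqrt k * Real.sqrt k = k := Real.mul_self_sqrt (by positivity)
    have h5 := mul_le_mul_of_nonneg_right h3 (show 0 ≤ η / 3 * Real.sqrt k by positivity)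
    have h6 : 2 ^ (y + 1) * (3 / η) * (η / 3 * Real.sqrt k) = 2 ^ (y + 1) * Real.sqrt k := by
      field_simp
    rw [h6] at h5
    refine h5.trans (le_of_eq ?_)
    rw [mul_left_comm, h4]

/-- Restriction to the integers from `1` to `k`, as an additive map. -/
def Res (k : ℕ) : (Fin (k + 1) → ZMod k) →+ (Set.Icc 1 k → ZMod k) :=
  AddMonoidHom.mk' (fun ω n => F ω n) fun ω ω' => funext fun n => F_add ω ω' n

omit [NeZero k] in
theorem range_Res (f : Set.Icc 1 k → ZMod k) : f ∈ Set.range (Res k) ↔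
    ∀ a b c : Set.Icc 1 k, (c : ℕ) = a * b → f c = f a + f b := by
  constructor
  · rintro ⟨ω, rfl⟩ a b c h
    change F ω c = F ω a + F ω b
    rw [h, F_mul ω (Nat.one_le_iff_ne_zero.mp a.2.1) (Nat.one_le_iff_ne_zero.mp b.2.1)]
  · intro hf
    refine ⟨fun i => if h : (i : ℕ) ∈ Set.Icc 1 k then f ⟨i, h⟩ else 0, funext fun n => ?_⟩
    obtain ⟨n, hn⟩ := n
    change F _ n = _
    induction n using Nat.recOnMul with
    | zero => exact absurd hn.1 (by omega)
    | one =>
      have := hf ⟨1, hn⟩ ⟨1, hn⟩ ⟨1, hn⟩ rfl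
      rw [left_eq_add.mp this]
      simp [F]
    | prime p hp =>
      have := F_prime (fun i : Fin (k + 1) => if h : (i : ℕ) ∈ Set.Icc 1 k then f ⟨i, h⟩ else 0)
        ⟨p, Nat.lt_succ_of_le hn.2⟩ hp
      exact this.trans (dif_pos hn)
    | mul a b iha ihb =>
      have ha : 0 < a := Nat.pos_of_mul_pos_right hn.1
      have hb : 0 < b := Nat.pos_of_mul_pos_left hn.1
      have ha' : a ∈ Set.Icc 1 k := ⟨ha, (Nat.le_mul_of_pos_right a hb).trans hn.2⟩
      have hb' : b ∈ Set.Icc 1 k := ⟨hb, (Nat.le_mul_of_pos_left b ha).trans hn.2⟩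
      rw [F_mul _ ha.ne' hb.ne', iha ha', ihb hb', hf ⟨a, ha'⟩ ⟨b, hb'⟩ ⟨a * b, hn⟩ rfl]

omit [NeZero k] in
theorem ncard_range_Res (ω : Fin (k + 1) → ZMod k) :
    (Set.range (Res k ω)).ncard = ((Icc 1 k).image (F ω)).card := by
  rw [← Set.ncard_coe_finset]
  congr 1
  ext t
  simp only [Set.mem_range, coe_image, coe_Icc, Set.mem_image]
  exact ⟨fun ⟨n, hn⟩ => ⟨n, n.2, hn⟩, fun ⟨n, h, hn⟩ => ⟨⟨n, h⟩, hn⟩⟩

theorem card_preimage {A B : Type*} [AddGroup A] [Fintype A] [AddGroup B] [DecidableEq B]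
    (φ : A →+ B) (S : Set B) [DecidablePred fun a => φ a ∈ S] (hS : S ⊆ Set.range φ) :
    (univ.filter fun a => φ a ∈ S).card = S.ncard * (univ.filter fun a => φ a = 0).card := by
  classical
  have hfin : S.Finite := (Set.finite_range φ).subset hS
  rw [Set.ncard_eq_toFinset_card S hfin, Finset.card_eq_sum_card_fiberwise (f := φ)
    (t := hfin.toFinset) (fun a ha => by simpa using ha), ← smul_eq_mul, ← Finset.sum_const]
  refine Finset.sum_congr rfl fun b hb => ?_
  have hb' : b ∈ S := by simpa using hb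
  rw [← AddMonoidHom.card_fiber_eq_of_mem_range φ (hS hb') ⟨0, map_zero φ⟩]
  congr 1
  ext a
  simp only [mem_filter, mem_univ, true_and, and_iff_right_iff_imp]
  rintro rfl
  exact hb'

end Pool.Agent.MP_f7711f_nt.H9
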